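import Pool.Agent.Q285.Quad.Defs
import Pool.Agent.Q285.Quad.Data
import Pool.Agent.Q285.Quad.Cut

set_option autoImplicit false

/-!
# MP_79dd7e_co, Q1: the bound `q(R) ≤ 2n+1` fails for every `n ≥ 2`

`IsConvexGon m R`: `R` is a convex polygon with exactly `m` vertices.
`quadCount R : ℕ∞`: the number of quadrisections of `R` (unordered pairs of perpendicular lines
through an interior point whose four closed quadrants each meet `R` in a quarter of its area).
Both are defined in `Pool/Agent/Q285/Quad/Defs.lean`.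

* `n = 2` and `n = 3`: explicit integer polygons and sign changes of the area of a quadrant.
* `n ≥ 4`: a square with its corners cut off, equal areas at all corners, one of them by a chain
  of `2n-5` vertices; it has infinitely many quadrisections.
-/

namespace Pool.Agent.Results.MP_79dd7e_co.OddPolygons

open Pool.Agent.Q285.Quad

/-- For every `n ≥ 2` some convex `(2n+1)`-gon has more than `2n+1` quadrisections, and for every
`n ≥ 4` some convex `(2n+1)`-gon has infinitely many. -/
theorem result :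
    (∀ n : ℕ, 2 ≤ n → ∃ R : Set (ℝ × ℝ), IsConvexGon (2 * n + 1) R ∧
      ((2 * n + 1 : ℕ) : ℕ∞) < quadCount R) ∧
    (∀ n : ℕ, 4 ≤ n → ∃ R : Set (ℝ × ℝ), IsConvexGon (2 * n + 1) R ∧ quadCount R = ⊤) := by
  have h4 : ∀ n : ℕ, 4 ≤ n → ∃ R : Set (ℝ × ℝ), IsConvexGon (2 * n + 1) R ∧ quadCount R = ⊤ := by
    intro n hn
    obtain ⟨R, h1, h2⟩ := cut_infinite (k := 2 * n - 5) (by omega)
    refine ⟨R, ?_, h2⟩
    have e : 2 * n + 1 = 2 * n - 5 + 6 := by omega
    rw [e]
    exact h1
  refine ⟨?_, h4⟩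
  intro n hn
  rcases Nat.lt_or_ge n 4 with h | h
  · have h5 : n = 2 ∨ n = 3 := by omega
    rcases h5 with rfl | rfl
    · obtain ⟨R, h6, h7⟩ := gon_of_check penta_ok
      refine ⟨R, h6, lt_of_lt_of_le ?_ h7⟩
      exact_mod_cast (by norm_num : (2 * 2 + 1 : ℕ) < 6)
    · obtain ⟨R, h6, h7⟩ := gon_of_check hepta_ok
      refine ⟨R, h6, lt_of_lt_of_le ?_ h7⟩
      exact_mod_cast (by norm_num : (2 * 3 + 1 : ℕ) < 8)
  · obtain ⟨R, h6, h7⟩ := h4 n h
    refine ⟨R, h6, ?_⟩
    rw [h7]
    exact ENat.natCast_lt_top _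

end Pool.Agent.Results.MP_79dd7e_co.OddPolygons
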